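import Pool.Agent.Helper14.FO.Defs

set_option autoImplicit false

namespace Pool.Agent.Helper14.FO

open Finset

theorem kup_sub (p : ℕ) [NeZero p] (a b : ZMod p) (h : b.val ≤ a.val) :
    (a - b).val = a.val - b.val := ZMod.val_sub h

theorem st_KUP : ST_KUP := by
  intro p q _ hq h2
  refine ⟨ZMod p, inferInstance, inferInstance, fun j => {x | (x - j).val < q}, ?_, ?_⟩
  · intro j x hx y hy hadj
    obtain ⟨-, h3, h4⟩ := hadj
    have hx' : (x - j).val < q := hx
    have hy' : (y - j).val < q := hy
    rcases le_total (y - j).val (x - j).val with h | h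
    · have h5 := kup_sub p (x - j) (y - j) h
      have h6 : (x - j) - (y - j) = x - y := by ring
      rw [h6] at h5
      omega
    · have h5 := kup_sub p (y - j) (x - j) h
      have h6 : (y - j) - (x - j) = y - x := by ring
      rw [h6] at h5
      omega
  · intro y
    have hp : 0 < p := Nat.pos_of_ne_zero (NeZero.ne p)
    have hcard : Fintype.card (ZMod p) = p := ZMod.card p
    have hn : q ≤ Set.ncard {j : ZMod p | y ∈ {x : ZMod p | (x - j).val < q}} := by
      have hinj : Set.InjOn (fun i : ℕ => y - (i : ZMod p)) (Set.Iio q) := by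
        intro i hi i' hi' e
        have hi1 : i < q := hi
        have hi1' : i' < q := hi'
        have e' : (i : ZMod p) = (i' : ZMod p) := by
          have e0 : y - (i : ZMod p) = y - (i' : ZMod p) := e
          exact sub_right_injective e0
        have e2 := congrArg ZMod.val e'
        rw [ZMod.val_natCast, ZMod.val_natCast, Nat.mod_eq_of_lt (by omega),
          Nat.mod_eq_of_lt (by omega)] at e2
        exact e2
      have hsub : (fun i : ℕ => y - (i : ZMod p)) '' (Set.Iio q) ⊆
          {j : ZMod p | y ∈ {x : ZMod p | (x - j).val < q}} := by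
        rintro _ ⟨i, hi, rfl⟩
        have hi1 : i < q := hi
        show (y - (y - (i : ZMod p))).val < q
        have e : y - (y - (i : ZMod p)) = (i : ZMod p) := by ring
        rw [e, ZMod.val_natCast, Nat.mod_eq_of_lt (by omega)]
        exact hi1
      have h3 := Set.ncard_le_ncard hsub (Set.toFinite _)
      rw [hinj.ncard_image] at h3
      have h4 : (Set.Iio q).ncard = q := by
        rw [← Finset.coe_range, Set.ncard_coe_finset, Finset.card_range]
      omega
    have hq' : (0 : ℝ) < q := by exact_mod_cast hq
    have hn' : (q : ℝ) ≤ (Set.ncard {j : ZMod p | y ∈ {x : ZMod p | (x - j).val < q}} : ℝ) := by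
      exact_mod_cast hn
    have h5 : ((p : ℝ) / q) * q ≤
        ((p : ℝ) / q) * (Set.ncard {j : ZMod p | y ∈ {x : ZMod p | (x - j).val < q}} : ℝ) :=
      mul_le_mul_of_nonneg_left hn' (by positivity)
    rw [div_mul_cancel₀ _ hq'.ne'] at h5
    have h6 : (Fintype.card (ZMod p) : ℝ) = (p : ℝ) := by rw [hcard]
    rw [h6]
    exact h5

end Pool.Agent.Helper14.FO
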