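import Pool.Agent.Helper14.FO.Defs

set_option autoImplicit false

namespace Pool.Agent.Helper14.FO

open Finset

theorem st_PIG : ST_PIG := by
  intro V G _ _ _ _ B R β ρ hβ hρ S hS
  classical
  let sl : V → Finset G := fun x => univ.filter (fun r => (x, r) ∈ S)
  have hmem : ∀ x r, r ∈ sl x ↔ (x, r) ∈ S := by
    intro x r
    simp [sl]
  have hcard : S.card = ∑ x : V, (sl x).card := by
    have h1 : S = ((univ : Finset V).sigma (fun x => sl x)).image (fun z => (z.1, z.2)) := by
      ext ⟨x, r⟩
      simp only [Finset.mem_image, Finset.mem_sigma, Finset.mem_univ, true_and]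
      constructor
      · intro h
        exact ⟨⟨x, r⟩, (hmem x r).2 h, rfl⟩
      · rintro ⟨⟨x', r'⟩, h, e⟩
        have e1 : x' = x := congrArg Prod.fst e
        have e2 : r' = r := congrArg Prod.snd e
        subst e1
        subst e2
        exact (hmem _ _).1 h
    have h2 : ((univ : Finset V).sigma (fun x => sl x)).card = ∑ x : V, (sl x).card :=
      Finset.card_sigma _ _
    rw [← h2]
    conv_lhs => rw [h1]
    refine Finset.card_image_of_injOn ?_
    rintro ⟨x, r⟩ _ ⟨x', r'⟩ _ e
    have e1 : x = x' := congrArg Prod.fst e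
    have e2 : r = r' := congrArg Prod.snd e
    subst e1
    subst e2
    rfl
  let bad : Finset V := univ.filter (fun x => ¬ Ind R (sl x))
  have hbad : bad.card ≤ 2 ^ Fintype.card G * β := by
    have h1 : bad ⊆ (univ : Finset (Finset G)).biUnion
        (fun T => bad.filter (fun x => sl x = T)) := by
      intro x hx
      exact Finset.mem_biUnion.2 ⟨sl x, Finset.mem_univ _, Finset.mem_filter.2 ⟨hx, rfl⟩⟩
    have h2 : ∀ T ∈ (univ : Finset (Finset G)), (bad.filter (fun x => sl x = T)).card ≤ β := by
      intro T _
      apply hβ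
      intro a ha b hb hab
      obtain ⟨ha1, ha2⟩ := Finset.mem_filter.1 ha
      obtain ⟨hb1, hb2⟩ := Finset.mem_filter.1 hb
      have ha3 : ¬ Ind R (sl a) := (Finset.mem_filter.1 ha1).2
      unfold Ind at ha3
      push Not at ha3
      obtain ⟨r, hr, r', hr', hrr⟩ := ha3
      have e1 : (a, r) ∈ S := (hmem a r).1 hr
      have e2 : (b, r') ∈ S := by
        rw [← hmem b r', hb2, ← ha2]
        exact hr'
      exact hS _ e1 _ e2 ⟨hab, hrr⟩
    calc bad.card ≤ _ := Finset.card_le_card h1
      _ ≤ ∑ T : Finset G, (bad.filter (fun x => sl x = T)).card := Finset.card_biUnion_le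
      _ ≤ ∑ T : Finset G, β := Finset.sum_le_sum h2
      _ = 2 ^ Fintype.card G * β := by
        rw [Finset.sum_const, Finset.card_univ, Fintype.card_finset, smul_eq_mul]
  have hsl : ∀ x : V, (sl x).card ≤ ρ + (if x ∈ bad then Fintype.card G else 0) := by
    intro x
    by_cases hx : x ∈ bad
    · rw [if_pos hx]
      have := Finset.card_le_univ (sl x)
      omega
    · rw [if_neg hx]
      have hi : Ind R (sl x) := by
        by_contra h
        exact hx (Finset.mem_filter.2 ⟨Finset.mem_univ _, h⟩)
      have := hρ _ hi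
      omega
  calc S.card = ∑ x : V, (sl x).card := hcard
    _ ≤ ∑ x : V, (ρ + (if x ∈ bad then Fintype.card G else 0)) :=
      Finset.sum_le_sum (fun x _ => hsl x)
    _ = Fintype.card V * ρ + bad.card * Fintype.card G := by
      rw [Finset.sum_add_distrib, Finset.sum_const, Finset.card_univ, smul_eq_mul,
        Finset.sum_ite_mem, Finset.univ_inter, Finset.sum_const, smul_eq_mul]
    _ ≤ Fintype.card V * ρ + 2 ^ Fintype.card G * β * Fintype.card G := by
      exact Nat.add_le_add_left (Nat.mul_le_mul_right _ hbad) _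

end Pool.Agent.Helper14.FO
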