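import Pool.Agent.Helper14.FO.Defs

set_option autoImplicit false

namespace Pool.Agent.Helper14.FO

open Finset

theorem st_REL1 : ST_REL1 := by
  rintro V W X Y ⟨φ, hφ⟩
  refine ⟨fun _ => 1, fun _ => Nat.one_pos, ?_, ?_⟩
  · intro ε hε
    refine ⟨0, fun n _ => ?_⟩
    have h : (0 : ℝ) ≤ ε * n := by positivity
    have := Real.one_le_exp h
    simpa using this
  · intro n _
    refine ⟨fun u => (0, fun i => φ (u i)), ?_⟩
    rintro u v ⟨i, hi⟩
    exact Or.inr ⟨i, hφ _ _ hi⟩

theorem st_REL2 : ST_REL2 := by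
  rintro U V W X Y Z ⟨k, hk, hks, hkf⟩ ⟨k', hk', hks', hkf'⟩
  refine ⟨fun n => k n * k' n, fun n => Nat.mul_pos (hk n) (hk' n), ?_, ?_⟩
  · intro ε hε
    obtain ⟨n0, h0⟩ := hks (ε / 2) (by linarith)
    obtain ⟨n1, h1⟩ := hks' (ε / 2) (by linarith)
    refine ⟨max n0 n1, fun n hn => ?_⟩
    have a0 := h0 n (le_trans (le_max_left _ _) hn)
    have a1 := h1 n (le_trans (le_max_right _ _) hn)
    have e : Real.exp (ε * n) = Real.exp (ε / 2 * n) * Real.exp (ε / 2 * n) := by
      rw [← Real.exp_add]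
      congr 1
      ring
    rw [e]
    push_cast
    exact mul_le_mul a0 a1 (Nat.cast_nonneg _) (Real.exp_nonneg _)
  · intro n hn
    obtain ⟨f, hf⟩ := hkf n hn
    obtain ⟨g, hg⟩ := hkf' n hn
    refine ⟨fun u => (finProdFinEquiv ((f u).1, (g (f u).2).1), (g (f u).2).2), ?_⟩
    intro u v huv
    have key : (f u).1 ≠ (f v).1 ∨ (g (f u).2).1 ≠ (g (f v).2).1 ∨
        ∃ i, Z.Adj ((g (f u).2).2 i) ((g (f v).2).2 i) := by
      rcases hf u v huv with h | h
      · exact Or.inl h
      · exact Or.inr (hg _ _ h)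
    rcases key with h | h | h
    · left
      intro e
      have := finProdFinEquiv.injective e
      exact h (Prod.ext_iff.mp this).1
    · left
      intro e
      have := finProdFinEquiv.injective e
      exact h (Prod.ext_iff.mp this).2
    · exact Or.inr h

end Pool.Agent.Helper14.FO
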