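import Pool.Agent.Helper14.FO.Defs

set_option autoImplicit false

namespace Pool.Agent.Helper14.FO

open Finset

/-- the sign -/
noncomputable def vecs (a : ZMod 2) : ℝ := if a = 0 then 1 else -1

theorem vecs_mul (a b : ZMod 2) : vecs a * vecs b = if a ≠ b then -1 else 1 := by
  have h : ∀ a : ZMod 2, a = 0 ∨ a = 1 := by decide
  have h10 : (1 : ZMod 2) ≠ 0 := by decide
  rcases h a with rfl | rfl <;> rcases h b with rfl | rfl <;> simp [vecs]

theorem vecs_sum {N : ℕ} (x y : Fin N → ZMod 2) :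
    ∑ i, vecs (x i) * vecs (y i) = (N : ℝ) - 2 * hammingDist x y := by
  have h1 : ∀ i, vecs (x i) * vecs (y i) = 1 - 2 * (if x i ≠ y i then (1 : ℝ) else 0) := by
    intro i
    rw [vecs_mul]
    split_ifs <;> norm_num
  rw [Finset.sum_congr rfl (fun i _ => h1 i), Finset.sum_sub_distrib, ← Finset.mul_sum,
    Finset.sum_boole]
  simp [hammingDist]

theorem st_VEC : ST_VEC := by
  intro N r h2
  have hN : (0 : ℝ) < (N : ℝ) - 2 * r := by
    have : ((2 * r : ℕ) : ℝ) < (N : ℝ) := by exact_mod_cast h2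
    push_cast at this
    linarith
  have hN0 : (0 : ℝ) < (N : ℝ) := by
    have : 0 < N := by omega
    exact_mod_cast this
  refine ⟨N, fun x i => vecs (x i) / Real.sqrt ((N : ℝ) - 2 * r), ?_, ?_⟩
  · intro y
    have h1 : ∀ i, (vecs (y i) / Real.sqrt ((N : ℝ) - 2 * r)) ^ 2 =
        (vecs (y i) * vecs (y i)) / ((N : ℝ) - 2 * r) := by
      intro i
      rw [div_pow, Real.sq_sqrt hN.le, sq]
    rw [Finset.sum_congr rfl (fun i _ => h1 i), ← Finset.sum_div, vecs_sum]
    have h3 : hammingDist y y = 0 := hammingDist_self y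
    rw [h3]
    have h4 : (1 : ℝ) - 2 * (r : ℝ) / N = ((N : ℝ) - 2 * r) / N := by
      field_simp
    rw [h4]
    field_simp
    push_cast
    ring
  · intro x y hxy
    obtain ⟨-, hd⟩ := hxy
    have h1 : ∀ i, (vecs (x i) / Real.sqrt ((N : ℝ) - 2 * r)) *
        (vecs (y i) / Real.sqrt ((N : ℝ) - 2 * r)) =
        (vecs (x i) * vecs (y i)) / ((N : ℝ) - 2 * r) := by
      intro i
      rw [div_mul_div_comm, Real.mul_self_sqrt hN.le]
    rw [Finset.sum_congr rfl (fun i _ => h1 i), ← Finset.sum_div, vecs_sum, hd,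
      div_eq_iff hN.ne']
    have h5 : r ≤ N := by omega
    push_cast [Nat.cast_sub h5]
    ring

end Pool.Agent.Helper14.FO
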