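import Pool.Agent.Helper14.FO.Defs2

/-! # XPF: expansion from the spectral certificate -/

set_option autoImplicit false

namespace Pool.Agent.Helper14.FO

open Finset

/-- indicator of a finset -/
private def xpf_ind {V : Type} [DecidableEq V] (S : Finset V) (x : V) : ℝ := if x ∈ S then 1 else 0

private theorem xpf_sq {V : Type} [DecidableEq V] (S : Finset V) (x : V) :
    xpf_ind S x ^ 2 = xpf_ind S x := by
  unfold xpf_ind; split_ifs <;> norm_num

private theorem xpf_sum {V : Type} [Fintype V] [DecidableEq V] (S : Finset V) (ρ : V → ℝ) :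
    ∑ x, ρ x * xpf_ind S x = ∑ x ∈ S, ρ x := by
  unfold xpf_ind
  simp [Finset.sum_ite_mem]

theorem st_XPF : ST_XPF := by
  intro V _ _ X ρ M hM hρ hFC I hI N hN
  obtain ⟨E, hE0, hsym, hrow, hlow, hup⟩ := hFC
  set a : V → ℝ := xpf_ind I with ha
  set b : V → ℝ := xpf_ind N with hb
  have hIN : I ⊆ N := fun x hx => (hN x).2 (Or.inl hx)
  have hab : ∀ x, a x * b x = a x := by
    intro x
    simp only [ha, hb, xpf_ind]
    by_cases hx : x ∈ I
    · simp [hx, hIN hx]
    · simp [hx]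
  -- E(1_I,1_I) = 0
  have h1 : ∑ x, ∑ y, E x y * a x * a y = 0 := by
    refine Finset.sum_eq_zero fun x _ => Finset.sum_eq_zero fun y _ => ?_
    simp only [ha, xpf_ind]
    by_cases hx : x ∈ I
    · by_cases hy : y ∈ I
      · rw [hE0 x y (hI x hx y hy)]; ring
      · simp [hy]
    · simp [hx]
  -- E(1_I,1_N) = ρ(I)
  have h2 : ∑ x, ∑ y, E x y * a x * b y = ∑ x ∈ I, ρ x := by
    rw [← xpf_sum I ρ]
    refine Finset.sum_congr rfl fun x _ => ?_
    rw [← hrow x, Finset.sum_mul]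
    refine Finset.sum_congr rfl fun y _ => ?_
    simp only [hb, xpf_ind]
    by_cases hx : x ∈ I
    · by_cases hxy : X.Adj x y
      · have : y ∈ N := (hN y).2 (Or.inr ⟨x, hx, hxy⟩)
        simp [this, ha, xpf_ind]
      · rw [hE0 x y hxy]; ring
    · simp [ha, xpf_ind, hx]
  have h2' : ∑ x, ∑ y, E x y * b x * a y = ∑ x ∈ I, ρ x := by
    rw [← h2, Finset.sum_comm]
    refine Finset.sum_congr rfl fun x _ => Finset.sum_congr rfl fun y _ => ?_
    rw [hsym y x]; ring
  have hbb : ∑ x, ρ x * b x ^ 2 = ∑ x ∈ N, ρ x := by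
    rw [← xpf_sum N ρ]
    exact Finset.sum_congr rfl fun x _ => by rw [hb, xpf_sq]
  have haa : ∑ x, ρ x * a x ^ 2 = ∑ x ∈ I, ρ x := by
    rw [← xpf_sum I ρ]
    exact Finset.sum_congr rfl fun x _ => by rw [ha, xpf_sq]
  have haab : ∑ x, ρ x * (a x * b x) = ∑ x ∈ I, ρ x := by
    rw [← xpf_sum I ρ]
    exact Finset.sum_congr rfl fun x _ => by rw [hab]
  have h3 : ∑ x, ∑ y, E x y * b x * b y ≤ ∑ x ∈ N, ρ x := hbb ▸ hup b
  set r := ∑ x ∈ I, ρ x with hr
  set s := ∑ x ∈ N, ρ x with hs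
  set e := ∑ x, ∑ y, E x y * b x * b y with he
  have h4 := hlow (fun x => (1 + M) / M * a x - b x)
  have hq : ∑ x, ∑ y, E x y * ((1 + M) / M * a x - b x) * ((1 + M) / M * a y - b y)
      = ((1 + M) / M) ^ 2 * (∑ x, ∑ y, E x y * a x * a y)
        - (1 + M) / M * (∑ x, ∑ y, E x y * a x * b y)
        - (1 + M) / M * (∑ x, ∑ y, E x y * b x * a y) + e := by
    rw [he]
    simp only [Finset.mul_sum, ← Finset.sum_sub_distrib, ← Finset.sum_add_distrib]
    exact Finset.sum_congr rfl fun x _ => Finset.sum_congr rfl fun y _ => by ring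
  have hd : ∑ x, ρ x * ((1 + M) / M * a x - b x) ^ 2
      = ((1 + M) / M) ^ 2 * (∑ x, ρ x * a x ^ 2) - 2 * ((1 + M) / M) * (∑ x, ρ x * (a x * b x))
        + ∑ x, ρ x * b x ^ 2 := by
    simp only [Finset.mul_sum, ← Finset.sum_sub_distrib, ← Finset.sum_add_distrib]
    exact Finset.sum_congr rfl fun x _ => by ring
  rw [hq, hd, h1, h2, h2', haa, haab, hbb] at h4
  have hne : M ≠ 0 := hM.ne'
  have key : (1 + M) ^ 2 / M * r ≤ (1 + M) * s := by
    have h5 : 0 ≤ ((1 + M) / M) ^ 2 * 0 - (1 + M) / M * r - (1 + M) / M * r + e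
      + M * (((1 + M) / M) ^ 2 * r - 2 * ((1 + M) / M) * r + s) := h4
    have h6 : ((1 + M) / M) ^ 2 * 0 - (1 + M) / M * r - (1 + M) / M * r + e
      + M * (((1 + M) / M) ^ 2 * r - 2 * ((1 + M) / M) * r + s)
      = e + M * s - (1 + M) ^ 2 / M * r := by
      field_simp; ring
    rw [h6] at h5
    linarith
  have h7 : (1 + M) ^ 2 / M * r = (1 + M) * ((1 + 1 / M) * r) := by
    field_simp
    ring
  rw [h7] at key
  exact le_of_mul_le_mul_left key (by linarith)

end Pool.Agent.Helper14.FO
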